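import Pool.Agent.H41.HYP.S4

/-!
# HYP, CTD: the number of polynomials of bounded degree
-/

set_option autoImplicit false

namespace Pool.HYP

open Polynomial

theorem ctd : CTDStmt := by
  intro F _ _ m
  have key : {p : F[X] | DegLe p m} = (Polynomial.degreeLT F (m + 1).toNat : Set F[X]) := by
    ext p
    simp only [Set.mem_ofPred_eq, SetLike.mem_coe, Polynomial.mem_degreeLT, DegLe]
    by_cases hp : p = 0
    · subst hp
      simp
    · rw [Polynomial.degree_eq_natDegree hp]
      constructor
      · intro h
        have h1 := h hp
        have : p.natDegree < (m + 1).toNat := by omega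
        exact_mod_cast this
      · intro h _
        have : p.natDegree < (m + 1).toNat := by exact_mod_cast h
        omega
  rw [key]
  have e := (Polynomial.degreeLTEquiv F (m + 1).toNat).toEquiv
  have : Finite (Polynomial.degreeLT F (m + 1).toNat) := Finite.of_equiv _ e.symm
  refine ⟨Set.toFinite _, ?_⟩
  rw [← Nat.card_coe_set_eq]
  have := Nat.card_congr e
  rw [Nat.card_fun, Nat.card_eq_fintype_card (α := Fin _), Fintype.card_fin] at this
  exact this

end Pool.HYP
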