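import Pool.Agent.H41.HYP.S7
import Pool.Agent.H97.HYP.TWI

/-!
# HYP, row HYM: the twists of the members of the family by any monic polynomial
-/

set_option autoImplicit false

namespace Pool.HYP

open Polynomial

theorem hym : HYMStmt := by
  intro F _ _ g D h hD f hf d hdm
  have hir := irr F g D h hD.2.1 hD.2.2.1 hD.2.2.2 f hf
  obtain ⟨hm, hn, hc, -⟩ := hf
  have hd0 : d ≠ 0 := hdm.ne_zero
  refine ⟨(monic_scaleRoots_iff d).2 hm, by rw [natDegree_scaleRoots, hn], ?_, ?_⟩
  · intro i hi
    rw [coeff_scaleRoots, hn, Nat.sub_sub_self hi]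
    calc (f.coeff (2 * g + 1 - i) * d ^ i).natDegree ≤
        (f.coeff (2 * g + 1 - i)).natDegree + (d ^ i).natDegree := natDegree_mul_le
      _ ≤ i * h + i * d.natDegree :=
        Nat.add_le_add (hc i hi).1 natDegree_pow_le
      _ = i * (h + d.natDegree) := by ring
  · have h1 : fK (f.scaleRoots d) = (fK f).scaleRoots (rf d) := by
      refine map_scaleRoots f d _ ?_
      rw [hm.leadingCoeff, map_one]
      exact one_ne_zero
    rw [h1]
    have h2 : rf d ≠ 0 := by
      intro h3
      exact hd0 ((map_eq_zero_iff _ (IsFractionRing.injective F[X] (RatFunc F))).1 h3)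
    refine Twi.sep_scale _ _ h2 ?_
    rw [separable_iff_derivative_ne_zero hir]
    intro h3
    have h4 : D.top.Separable := PerfectField.separable_of_irreducible hD.2.2.2
    rw [separable_iff_derivative_ne_zero hD.2.2.2] at h4
    apply h4
    ext j
    rw [coeff_derivative, coeff_zero]
    have h5 : (derivative f).coeff j = 0 := by
      have h6 : (derivative f).map (algebraMap F[X] (RatFunc F)) = 0 := by
        rw [← derivative_map]
        exact h3
      have h7 : derivative f = 0 := by
        refine map_injective _ (IsFractionRing.injective F[X] (RatFunc F)) ?_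
        rw [h6, Polynomial.map_zero]
      rw [h7, coeff_zero]
    rw [coeff_derivative] at h5
    rcases le_or_gt (j + 1) (2 * g + 1) with hj | hj
    · have h6 := (hc (2 * g + 1 - (j + 1)) (Nat.sub_le _ _)).2
      rw [Nat.sub_sub_self hj] at h6
      rw [← h6]
      have h7 := congrArg (fun p : F[X] => p.coeff ((2 * g + 1 - (j + 1)) * h)) h5
      simp only [coeff_zero] at h7
      have h8 : (f.coeff (j + 1) * ((j : F[X]) + 1)).coeff ((2 * g + 1 - (j + 1)) * h) =
          (f.coeff (j + 1)).coeff ((2 * g + 1 - (j + 1)) * h) * ((j : F) + 1) := by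
        have h9 : ((j : F[X]) + 1) = C ((j : F) + 1) := by simp
        rw [h9, coeff_mul_C]
      rw [h8] at h7
      exact h7
    · rw [coeff_eq_zero_of_natDegree_lt (by rw [hD.2.2.1]; exact hj), zero_mul]

end Pool.HYP
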